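import Pool.Agent.H32.RQ.Targets

/-!
# HEC: a lower bound for the density modulo a prime power
-/

set_option autoImplicit false

open Finset Pool.Agent.H32.RQ

namespace Pool.Agent.H58.RQ

lemma qf_cast {R : Type} [CommRing R] {s : ℕ} (f : Mon s → ℤ) (x : Fin s → ℤ) :
    ((qf f x : ℤ) : R) = qf (fun p => (f p : R)) (fun j => (x j : R)) := by
  simp only [qf, Int.cast_sum, Int.cast_mul]

lemma dq_cast {R : Type} [CommRing R] {s : ℕ} (f : Mon s → ℤ) (x : Fin s → ℤ) (j : Fin s) :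
    ((dq f x j : ℤ) : R) = dq (fun p => (f p : R)) (fun j => (x j : R)) j := by
  simp only [dq, Int.cast_sum, Int.cast_mul, Int.cast_add]
  refine Finset.sum_congr rfl fun p _ => ?_
  congr 1
  congr 1 <;> split_ifs <;> simp

lemma jm_cast {R : Type} [CommRing R] {s : ℕ} (c : Fin 2 → Mon s → ℤ) (x : Fin s → ℤ)
    (j l : Fin s) :
    ((jm c x j l : ℤ) : R) = jm (cm R c) (fun j => (x j : R)) j l := by
  simp only [jm, Int.cast_sub, Int.cast_mul, dq_cast]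
  rfl

lemma qf_congr {s : ℕ} (d : ℕ) (f : Mon s → ℤ) (x y : Fin s → ℤ) (h : ∀ j, (d : ℤ) ∣ y j - x j) :
    (d : ℤ) ∣ qf f y - qf f x := by
  rw [← ZMod.intCast_eq_intCast_iff_dvd_sub, qf_cast, qf_cast]
  have : (fun j => (x j : ZMod d)) = fun j => (y j : ZMod d) := by
    funext j
    exact (ZMod.intCast_eq_intCast_iff_dvd_sub _ _ _).2 (h j)
  rw [this]

lemma jm_congr {s : ℕ} (d : ℕ) (c : Fin 2 → Mon s → ℤ) (x y : Fin s → ℤ)
    (h : ∀ j, (d : ℤ) ∣ y j - x j) (j l : Fin s) :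
    (d : ℤ) ∣ jm c y j l - jm c x j l := by
  rw [← ZMod.intCast_eq_intCast_iff_dvd_sub, jm_cast, jm_cast]
  have : (fun j => (x j : ZMod d)) = fun j => (y j : ZMod d) := by
    funext j
    exact (ZMod.intCast_eq_intCast_iff_dvd_sub _ _ _).2 (h j)
  rw [this]

lemma card_compl_two {s : ℕ} {a b : Fin s} (hab : a ≠ b) :
    Fintype.card {j : Fin s // j ≠ a ∧ j ≠ b} = s - 2 := by
  classical
  rw [Fintype.card_subtype]
  have : (Finset.univ.filter fun j : Fin s => j ≠ a ∧ j ≠ b) = Finset.univ \ {a, b} := by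
    ext j
    simp [not_or]
  rw [this, Finset.card_sdiff_of_subset (Finset.subset_univ _), Finset.card_pair hab,
    Finset.card_univ, Fintype.card_fin]

theorem pf_HEC (hHEN : T_HEN) : T_HEC := by
  classical
  intro s p t k _ c hp htk hPR
  obtain ⟨x, ⟨i₀, hi₀⟩, hq, a, b, hj⟩ := hPR
  have hex : ∃ n : ℕ, ¬ (p : ℤ) ^ n ∣ jm c x a b := ⟨t, hj⟩
  have hab : a ≠ b := by
    rintro rfl
    apply hj
    simp [jm]
  obtain ⟨τ, hτt, hτ1, hτ2⟩ : ∃ τ : ℕ, τ < t ∧ (p : ℤ) ^ τ ∣ jm c x a b ∧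
      ¬ (p : ℤ) ^ (τ + 1) ∣ jm c x a b := by
    have hf := Nat.find_spec hex
    have hpos : Nat.find hex ≠ 0 := by
      intro h0
      rw [h0] at hf
      simp at hf
    obtain ⟨τ, hτ⟩ := Nat.exists_eq_succ_of_ne_zero hpos
    refine ⟨τ, ?_, ?_, ?_⟩
    · have : Nat.find hex ≤ t := Nat.find_min' hex hj
      omega
    · have := Nat.find_min hex (m := τ) (by omega)
      exact not_not.1 this
    · rw [hτ] at hf
      exact hf
  have hp0 : (p : ℤ) ≠ 0 := by exact_mod_cast hp.ne_zero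
  set m := k - (2 * τ + 1) with hm
  have hmk : m + (2 * τ + 1) = k := by omega
  let xw : ({j : Fin s // j ≠ a ∧ j ≠ b} → Fin (p ^ m)) → Fin s → ℤ := fun w j =>
    x j + (p : ℤ) ^ (2 * τ + 1) * (if h : j ≠ a ∧ j ≠ b then ((w ⟨j, h⟩ : ℕ) : ℤ) else 0)
  have hxw : ∀ w j, (((p ^ (2 * τ + 1) : ℕ)) : ℤ) ∣ xw w j - x j := by
    intro w j
    refine ⟨(if h : j ≠ a ∧ j ≠ b then ((w ⟨j, h⟩ : ℕ) : ℤ) else 0), ?_⟩
    simp only [xw]
    push_cast
    ring
  have hdv : (p : ℤ) ^ (2 * τ + 1) ∣ (p : ℤ) ^ (2 * t) := pow_dvd_pow _ (by omega)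
  have hdv2 : (p : ℤ) ^ (τ + 1) ∣ (p : ℤ) ^ (2 * τ + 1) := pow_dvd_pow _ (by omega)
  have hdv3 : (p : ℤ) ^ τ ∣ (p : ℤ) ^ (2 * τ + 1) := pow_dvd_pow _ (by omega)
  have hy : ∀ w, ∃ y : Fin s → ℤ, (∀ j, j ≠ a → j ≠ b → y j = xw w j) ∧
      (∀ j, (p : ℤ) ^ (τ + 1) ∣ y j - xw w j) ∧ ∀ i, (p : ℤ) ^ k ∣ qf (c i) y := by
    intro w
    have h1 := jm_congr (p ^ (2 * τ + 1)) c x (xw w) (hxw w) a b
    push_cast at h1
    refine hHEN s p τ k c (xw w) a b hp ?_ ?_ ?_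
    · have := dvd_add (hdv3.trans h1) hτ1
      simpa using this
    · intro h2
      apply hτ2
      have := dvd_sub h2 (hdv2.trans h1)
      simpa using this
    · intro i
      have h3 := qf_congr (p ^ (2 * τ + 1)) (c i) x (xw w) (hxw w)
      push_cast at h3
      have := dvd_add h3 (hdv.trans (hq i))
      simpa using this
  choose y hy1 hy2 hy3 using hy
  let g : ({j : Fin s // j ≠ a ∧ j ≠ b} → Fin (p ^ m)) → Fin s → ZMod (p ^ k) :=
    fun w j => (y w j : ZMod (p ^ k))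
  have hg : Function.Injective g := by
    intro w w' h
    funext ⟨j, hj1, hj2⟩
    have h1 : ((y w j : ℤ) : ZMod (p ^ k)) = ((y w' j : ℤ) : ZMod (p ^ k)) := congrFun h j
    rw [ZMod.intCast_eq_intCast_iff_dvd_sub, hy1 w j hj1 hj2, hy1 w' j hj1 hj2] at h1
    simp only [xw] at h1
    rw [dif_pos ⟨hj1, hj2⟩, dif_pos ⟨hj1, hj2⟩] at h1
    have h2 : (p : ℤ) ^ (2 * τ + 1) * (p : ℤ) ^ m ∣ (p : ℤ) ^ (2 * τ + 1) *
        (((w' ⟨j, hj1, hj2⟩ : ℕ) : ℤ) - ((w ⟨j, hj1, hj2⟩ : ℕ) : ℤ)) := by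
      rw [← pow_add, add_comm (2 * τ + 1) m, hmk]
      have h3 : ((p ^ k : ℕ) : ℤ) = (p : ℤ) ^ k := by push_cast; rfl
      rw [h3] at h1
      have h4 : x j + (p : ℤ) ^ (2 * τ + 1) * ((w' ⟨j, hj1, hj2⟩ : ℕ) : ℤ) -
          (x j + (p : ℤ) ^ (2 * τ + 1) * ((w ⟨j, hj1, hj2⟩ : ℕ) : ℤ)) =
          (p : ℤ) ^ (2 * τ + 1) *
        (((w' ⟨j, hj1, hj2⟩ : ℕ) : ℤ) - ((w ⟨j, hj1, hj2⟩ : ℕ) : ℤ)) := by ring
      rw [h4] at h1
      exact h1
    have h3 := Int.dvd_of_mul_dvd_mul_left (pow_ne_zero _ hp0) h2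
    have h4 : ((w' ⟨j, hj1, hj2⟩ : ℕ) : ℤ) - ((w ⟨j, hj1, hj2⟩ : ℕ) : ℤ) = 0 := by
      refine Int.eq_zero_of_abs_lt_dvd h3 ?_
      have e1 := (w' ⟨j, hj1, hj2⟩).isLt
      have e2 := (w ⟨j, hj1, hj2⟩).isLt
      have e3 : (((w' ⟨j, hj1, hj2⟩ : ℕ)) : ℤ) < (p : ℤ) ^ m := by exact_mod_cast e1
      have e4 : (((w ⟨j, hj1, hj2⟩ : ℕ)) : ℤ) < (p : ℤ) ^ m := by exact_mod_cast e2
      rw [abs_lt]
      constructor <;> omega
    apply Fin.ext
    have := sub_eq_zero.1 h4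
    exact_mod_cast this.symm
  have hmem : ∀ w, g w ∈ Finset.univ.filter fun z : Fin s → ZMod (p ^ k) =>
      Prm z ∧ ∀ i, qf (cm (ZMod (p ^ k)) c i) z = 0 := by
    intro w
    rw [Finset.mem_filter]
    refine ⟨Finset.mem_univ _, ?_, ?_⟩
    · have h1 : ¬ (p : ℤ) ∣ y w i₀ := by
        intro h
        apply hi₀
        have e1 : (p : ℤ) ∣ y w i₀ - xw w i₀ := (dvd_pow_self _ (by omega)).trans (hy2 w i₀)
        have e2 : (p : ℤ) ∣ xw w i₀ - x i₀ := by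
          have := hxw w i₀
          push_cast at this
          exact (dvd_pow_self _ (by omega)).trans this
        have e3 := dvd_sub h (dvd_add e1 e2)
        have e4 : y w i₀ - (y w i₀ - xw w i₀ + (xw w i₀ - x i₀)) = x i₀ := by ring
        rwa [e4] at e3
      have h2 : IsCoprime (((p ^ k : ℕ)) : ℤ) (y w i₀) := by
        push_cast
        apply IsCoprime.pow_left
        exact (Nat.prime_iff_prime_int.1 hp).coprime_iff_not_dvd.2 h1
      have h3 : IsUnit ((y w i₀ : ℤ) : ZMod (p ^ k)) :=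
        (ZMod.coe_int_isUnit_iff_isCoprime _ _).2 h2
      obtain ⟨u, hu⟩ := h3
      refine ⟨Pi.single i₀ (↑u⁻¹ : ZMod (p ^ k)), ?_⟩
      rw [Finset.sum_eq_single i₀]
      · simp only [Pi.single_eq_same, g]
        rw [← hu]
        simp
      · intro j _ hj
        rw [Pi.single_eq_of_ne hj, zero_mul]
      · intro h
        exact absurd (Finset.mem_univ _) h
    · intro i
      have h1 : qf (cm (ZMod (p ^ k)) c i) (g w) = ((qf (c i) (y w) : ℤ) : ZMod (p ^ k)) := by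
        rw [qf_cast]
        rfl
      rw [h1, ZMod.intCast_zmod_eq_zero_iff_dvd]
      push_cast
      exact hy3 w i
  have hcard : Fintype.card ({j : Fin s // j ≠ a ∧ j ≠ b} → Fin (p ^ m)) ≤
      am (p ^ k) (cm (ZMod (p ^ k)) c) := by
    rw [← Finset.card_univ]
    have h0 := Finset.card_le_card_of_injOn g (s := Finset.univ)
      (t := Finset.univ.filter fun z : Fin s → ZMod (p ^ k) =>
        Prm z ∧ ∀ i, qf (cm (ZMod (p ^ k)) c i) z = 0) (fun w _ => hmem w)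
      (fun w _ w' _ h => hg h)
    exact h0
  refine le_trans ?_ hcard
  rw [Fintype.card_fun, Fintype.card_fin, card_compl_two hab, ← pow_mul]
  exact Nat.pow_le_pow_right hp.pos (Nat.mul_le_mul_right _ (by omega))

end Pool.Agent.H58.RQ
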