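import Pool.Agent.H32.RQ.Targets

/-!
# PAG: the number of pairs of good vectors with small minors divisible by `g`
-/

set_option autoImplicit false

open Finset Pool.Agent.H32.RQ

namespace Pool.Agent.H58.RQ

lemma le_dm {s : ℕ} (x y : Fin s → ℤ) (i j : Fin s) : (mnr x y i j).natAbs ≤ dm x y :=
  Finset.le_sup (f := fun p : Fin s × Fin s => (mnr x y p.1 p.2).natAbs) (Finset.mem_univ (i, j))

lemma gm_dvd {s : ℕ} (x y : Fin s → ℤ) (i j : Fin s) : ((gm x y : ℕ) : ℤ) ∣ mnr x y i j := by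
  rw [Int.natCast_dvd]
  exact Finset.gcd_dvd (f := fun p : Fin s × Fin s => (mnr x y p.1 p.2).natAbs)
    (Finset.mem_univ (i, j))

lemma dm_eq_zero {s : ℕ} (x y : Fin s → ℤ) (h : ∀ i j, mnr x y i j = 0) : dm x y = 0 := by
  unfold dm
  rw [← Nat.bot_eq_zero, Finset.sup_eq_bot_iff]
  intro p _
  simp [h]

lemma pag_key {s : ℕ} {b c g D : ℕ} (hs : 1 ≤ s) (hg : 1 ≤ g) {x y : Fin s → ℤ}
    (hx : Gd b c x) (hd : dm x y ≠ 0) (hgm : g ∣ gm x y) (hD : dm x y ≤ D) :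
    ∃ (i : Fin s) (z : Fin s → ℤ) (a : ℤ), (x i ≠ 0 ∧ |x i| ≤ ((b ^ 4 : ℕ) : ℤ) ∧
      (∀ j, |x j| ≤ |x i|) ∧ 0 ≤ z i ∧ z i < |x i| ∧
      (∀ j, |mnr x z i j| ≤ ((D / g : ℕ) : ℤ)) ∧ ∃ j, mnr x z i j ≠ 0) ∧
      (∀ j, y j = a * x j + g * z j) ∧ (b : ℤ) ^ 4 < 2 * |x i| := by
  have hne : (Finset.univ : Finset (Fin s)).Nonempty := ⟨⟨0, by omega⟩, Finset.mem_univ _⟩
  obtain ⟨i, -, hi⟩ := Finset.exists_max_image Finset.univ (fun j => |x j|) hne
  obtain ⟨i₁, hi₁⟩ := hx.big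
  have hbig : (b : ℤ) ^ 4 < 2 * |x i| := lt_of_lt_of_le hi₁ (by
    have := hi i₁ (Finset.mem_univ _)
    linarith)
  have hxi : x i ≠ 0 := by
    intro h
    rw [h] at hbig
    simp at hbig
    have : (0 : ℤ) ≤ (b : ℤ) ^ 4 := by positivity
    linarith
  obtain ⟨a, ha⟩ := hx.prm
  have hg0 : (g : ℤ) ≠ 0 := by exact_mod_cast (by omega : g ≠ 0)
  have hdv : ∀ j k, (g : ℤ) ∣ mnr x y j k := fun j k =>
    (Int.natCast_dvd_natCast.2 hgm).trans (gm_dvd x y j k)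
  choose u hu using hdv
  let c₀ : ℤ := ∑ k, a k * y k
  let z' : Fin s → ℤ := fun j => - ∑ k, a k * u j k
  have hz' : ∀ j, y j = c₀ * x j + g * z' j := by
    intro j
    have h1 : c₀ * x j - y j = ∑ k, a k * mnr x y j k := by
      have h2 : y j = (∑ k, a k * x k) * y j := by rw [ha, one_mul]
      calc c₀ * x j - y j = c₀ * x j - (∑ k, a k * x k) * y j := by rw [← h2]
        _ = ∑ k, a k * mnr x y j k := by
            simp only [c₀, mnr]
            rw [Finset.sum_mul, Finset.sum_mul, ← Finset.sum_sub_distrib]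
            refine Finset.sum_congr rfl fun k _ => ?_
            ring
    have h3 : ∑ k, a k * mnr x y j k = g * ∑ k, a k * u j k := by
      rw [Finset.mul_sum]
      refine Finset.sum_congr rfl fun k _ => ?_
      rw [hu]
      ring
    simp only [z']
    linarith
  let q : ℤ := z' i / x i
  let z : Fin s → ℤ := fun j => z' j - q * x j
  have hyz : ∀ j, y j = (c₀ + g * q) * x j + g * z j := by
    intro j
    rw [hz' j]
    simp only [z]
    ring
  have hmn : ∀ j k, mnr x y j k = g * mnr x z j k := by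
    intro j k
    simp only [mnr]
    rw [hyz j, hyz k]
    ring
  have hzi : z i = z' i % x i := by
    simp only [z, q]
    rw [Int.emod_def]
    ring
  refine ⟨i, z, c₀ + g * q, ⟨hxi, ?_, fun j => hi j (Finset.mem_univ _), ?_, ?_, ?_, ?_⟩,
    hyz, hbig⟩
  · push_cast
    exact hx.bd i
  · rw [hzi]
    exact Int.emod_nonneg _ hxi
  · rw [hzi]
    exact Int.emod_lt_abs _ hxi
  · intro j
    have h1 : (mnr x y i j).natAbs ≤ D := (le_dm x y i j).trans hD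
    rw [hmn, Int.natAbs_mul, Int.natAbs_natCast] at h1
    have h2 : (mnr x z i j).natAbs ≤ D / g := by
      rw [Nat.le_div_iff_mul_le (by omega), mul_comm]
      exact h1
    rw [Int.abs_eq_natAbs]
    exact_mod_cast h2
  · by_contra hcon
    push Not at hcon
    apply hd
    apply dm_eq_zero
    intro j k
    rw [hmn]
    have h1 := hcon j
    have h2 := hcon k
    simp only [mnr] at h1 h2 ⊢
    have h3 : x i * (x j * z k - x k * z j) = 0 := by
      linear_combination (-x k) * h1 + (x j) * h2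
    rcases mul_eq_zero.1 h3 with h | h
    · exact absurd h hxi
    · rw [h, mul_zero]

theorem pf_PAG (hPAI : T_PAI) : T_PAG := by
  classical
  intro s b c g D hs hb hg
  set P := (GS s b c ×ˢ GS s b c).filter fun q => dm q.1 q.2 ≠ 0 ∧ g ∣ gm q.1 q.2 ∧
      dm q.1 q.2 ≤ D with hP
  let PS : Fin s → Set ((Fin s → ℤ) × (Fin s → ℤ)) := fun i =>
    {q | q.1 i ≠ 0 ∧ |q.1 i| ≤ ((b ^ 4 : ℕ) : ℤ) ∧
      (∀ j, |q.1 j| ≤ |q.1 i|) ∧ 0 ≤ q.2 i ∧ q.2 i < |q.1 i| ∧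
      (∀ j, |mnr q.1 q.2 i j| ≤ ((D / g : ℕ) : ℤ)) ∧ ∃ j, mnr q.1 q.2 i j ≠ 0}
  have hfin : ∀ i, (PS i).Finite := fun i => (hPAI s i (b ^ 4) (D / g)).1
  have hcd : ∀ i, (PS i).ncard ≤ 2 * (b ^ 4) ^ 2 * (9 * (D / g)) ^ (s - 1) :=
    fun i => (hPAI s i (b ^ 4) (D / g)).2
  have hGd : ∀ x ∈ GS s b c, Gd b c x := by
    intro x hx
    unfold GS at hx
    exact (Finset.mem_filter.1 hx).2
  have key : ∀ q ∈ P, ∃ t : Fin s × (Fin s → ℤ) × ℤ, (q.1, t.2.1) ∈ PS t.1 ∧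
      (∀ j, q.2 j = t.2.2 * q.1 j + g * t.2.1 j) ∧ (b : ℤ) ^ 4 < 2 * |q.1 t.1| := by
    intro q hq
    rw [hP, Finset.mem_filter, Finset.mem_product] at hq
    obtain ⟨⟨h1, h2⟩, h3, h4, h5⟩ := hq
    obtain ⟨i, z, a, e1, e2, e3⟩ := pag_key hs hg (hGd _ h1) h3 h4 h5
    exact ⟨(i, z, a), e1, e2, e3⟩
  have hnon : Nonempty (Fin s × (Fin s → ℤ) × ℤ) := ⟨(⟨0, by omega⟩, 0, 0)⟩
  choose! f hf1 hf2 hf3 using key
  let Tf : Finset (Σ _ : Fin s, ((Fin s → ℤ) × (Fin s → ℤ)) × ℤ) :=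
    (Finset.univ : Finset (Fin s)).sigma fun i => (hfin i).toFinset ×ˢ Finset.Ico (0 : ℤ) 4
  let F : (Fin s → ℤ) × (Fin s → ℤ) → (Σ _ : Fin s, ((Fin s → ℤ) × (Fin s → ℤ)) × ℤ) :=
    fun q => ⟨(f q).1, ((q.1, (f q).2.1), (f q).2.2 % 4)⟩
  have hbd : ∀ q ∈ P, ∀ j, |q.2 j| ≤ (b : ℤ) ^ 4 := by
    intro q hq j
    rw [hP, Finset.mem_filter, Finset.mem_product] at hq
    exact (hGd _ hq.1.2).bd j
  have hcardP : P.card ≤ Tf.card := by
    refine Finset.card_le_card_of_injOn F ?_ ?_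
    · intro q hq
      have hq' : q ∈ P := hq
      simp only [Tf, F, Finset.coe_sigma, Set.mem_sigma_iff, Finset.mem_coe, Finset.mem_univ,
        Finset.mem_product, Set.Finite.mem_toFinset, Finset.mem_Ico, true_and]
      refine ⟨hf1 q hq', ?_, ?_⟩
      · exact Int.emod_nonneg _ (by norm_num)
      · exact Int.emod_lt_of_pos _ (by norm_num)
    · intro q hq q' hq' h
      have hq1 : q ∈ P := hq
      have hq2 : q' ∈ P := hq'
      simp only [F, Sigma.mk.injEq, heq_eq_eq, Prod.mk.injEq] at h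
      obtain ⟨h1, ⟨h2, h3⟩, h4⟩ := h
      have e1 := hf2 q hq1 (f q).1
      have e2 := hf2 q' hq2 (f q).1
      have b1 := hbd q hq1 (f q).1
      have b2 := hbd q' hq2 (f q).1
      rw [← h3, ← h2] at e2
      have hx := hf3 q hq1
      have hdiff : |((f q).2.2 - (f q').2.2) * q.1 (f q).1| ≤ 2 * (b : ℤ) ^ 4 := by
        have : ((f q).2.2 - (f q').2.2) * q.1 (f q).1 = q.2 (f q).1 - q'.2 (f q).1 := by
          rw [e1, e2]
          ring
        rw [this]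
        calc |q.2 (f q).1 - q'.2 (f q).1| ≤ |q.2 (f q).1| + |q'.2 (f q).1| := abs_sub _ _
          _ ≤ 2 * (b : ℤ) ^ 4 := by linarith
      rw [abs_mul] at hdiff
      have hlt : |(f q).2.2 - (f q').2.2| < 4 := by
        by_contra hcon
        push Not at hcon
        have h5 : 4 * |q.1 (f q).1| ≤ |(f q).2.2 - (f q').2.2| * |q.1 (f q).1| :=
          mul_le_mul_of_nonneg_right hcon (abs_nonneg _)
        linarith
      have ha : (f q).2.2 = (f q').2.2 := by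
        have h6 := abs_lt.1 hlt
        omega
      refine Prod.ext h2 ?_
      funext j
      rw [hf2 q hq1 j, hf2 q' hq2 j, ← h3, ← h2, ha]
  have hcT : Tf.card ≤ s * (2 * (b ^ 4) ^ 2 * (9 * (D / g)) ^ (s - 1) * 4) := by
    simp only [Tf]
    rw [Finset.card_sigma]
    calc ∑ i : Fin s, ((hfin i).toFinset ×ˢ Finset.Ico (0 : ℤ) 4).card
        ≤ ∑ _i : Fin s, 2 * (b ^ 4) ^ 2 * (9 * (D / g)) ^ (s - 1) * 4 := by
          refine Finset.sum_le_sum fun i _ => ?_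
          rw [Finset.card_product]
          have h1 : (hfin i).toFinset.card = (PS i).ncard :=
            (Set.ncard_eq_toFinset_card _ (hfin i)).symm
          rw [h1]
          have h2 : (Finset.Ico (0 : ℤ) 4).card = 4 := by simp
          rw [h2]
          exact Nat.mul_le_mul_right _ (hcd i)
      _ = s * (2 * (b ^ 4) ^ 2 * (9 * (D / g)) ^ (s - 1) * 4) := by
          rw [Finset.sum_const, Finset.card_univ, Fintype.card_fin, smul_eq_mul]
  have hfinal : (P.card : ℝ) ≤ s * (2 * ((b : ℝ) ^ 4) ^ 2 * (9 * ((D / g : ℕ) : ℝ)) ^ (s - 1) * 4) := by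
    exact_mod_cast hcardP.trans hcT
  refine hfinal.trans ?_
  have h1 : ((D / g : ℕ) : ℝ) ≤ (D : ℝ) / g := Nat.cast_div_le
  have h2 : (9 * ((D / g : ℕ) : ℝ)) ^ (s - 1) ≤ (9 * ((D : ℝ) / g)) ^ (s - 1) := by
    apply pow_le_pow_left₀ (by positivity)
    linarith
  have h3 : (0 : ℝ) ≤ (9 * ((D : ℝ) / g)) ^ (s - 1) := by positivity
  have h4 : (0 : ℝ) ≤ s * (b : ℝ) ^ 8 := by positivity
  calc s * (2 * ((b : ℝ) ^ 4) ^ 2 * (9 * ((D / g : ℕ) : ℝ)) ^ (s - 1) * 4)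
      = 8 * (s * (b : ℝ) ^ 8) * (9 * ((D / g : ℕ) : ℝ)) ^ (s - 1) := by ring
    _ ≤ 8 * (s * (b : ℝ) ^ 8) * (9 * ((D : ℝ) / g)) ^ (s - 1) :=
        mul_le_mul_of_nonneg_left h2 (by positivity)
    _ ≤ 10 * (s * (b : ℝ) ^ 8) * (9 * ((D : ℝ) / g)) ^ (s - 1) := by
        apply mul_le_mul_of_nonneg_right _ h3
        linarith
    _ = 10 * s * (b : ℝ) ^ 8 * (9 * ((D : ℝ) / g)) ^ (s - 1) := by ring

end Pool.Agent.H58.RQ
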