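import Pool.Agent.H32.RQ.Targets

/-!
# RFX: the number of the pairs which are bad at a given real vector
-/

set_option autoImplicit false

open Finset Pool.Agent.H32.RQ

namespace Pool.Agent.H58.RQ

/-- the monomial of two indices -/
def mon {s : ℕ} (a b : Fin s) : Mon s :=
  if h : a ≤ b then ⟨(a, b), h⟩ else ⟨(b, a), le_of_lt (not_le.1 h)⟩

lemma mon_sym {s : ℕ} {β : Type} (G : Fin s → Fin s → β) (hG : ∀ a b, G a b = G b a)
    (a b : Fin s) : G (mon a b).1.1 (mon a b).1.2 = G a b := by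
  unfold mon
  split_ifs with h
  · rfl
  · exact hG b a

lemma mon_inj {s : ℕ} (a : Fin s) : Function.Injective (mon a) := by
  intro b c h
  unfold mon at h
  split_ifs at h with h1 h2 h2
  · simp only [Subtype.mk.injEq, Prod.mk.injEq, true_and] at h
    exact h
  · simp only [Subtype.mk.injEq, Prod.mk.injEq] at h
    rw [h.2, ← h.1]
  · simp only [Subtype.mk.injEq, Prod.mk.injEq] at h
    rw [h.1, ← h.2]
  · simp only [Subtype.mk.injEq, Prod.mk.injEq, and_true] at h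
    exact h

/-- the monomials which contain the index -/
def PP {n : ℕ} (i₀ : Fin (n + 1)) : Finset (Mon (n + 1)) := Finset.univ.image (mon i₀)

lemma card_PP {n : ℕ} (i₀ : Fin (n + 1)) : (PP i₀).card = n + 1 := by
  unfold PP
  rw [Finset.card_image_of_injective _ (mon_inj i₀), Finset.card_univ, Fintype.card_fin]

lemma sum_split {n : ℕ} (i₀ : Fin (n + 1)) (g : Mon (n + 1) → ℝ) :
    ∑ p, g p = ∑ p ∈ Finset.univ \ PP i₀, g p +
      (g (mon i₀ i₀) + ∑ j : Fin n, g (mon i₀ (i₀.succAbove j))) := by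
  rw [← Finset.sum_sdiff (Finset.subset_univ (PP i₀))]
  congr 1
  unfold PP
  rw [Finset.sum_image fun a _ b _ h => mon_inj i₀ h, Fin.sum_univ_succAbove _ i₀]

/-- the weight of a monomial in a derivative -/
noncomputable def wt {s : ℕ} (x : Fin s → ℝ) (j : Fin s) (p : Mon s) : ℝ :=
  (if p.1.1 = j then x p.1.2 else 0) + (if p.1.2 = j then x p.1.1 else 0)

lemma wt_le {s : ℕ} {x : Fin s → ℝ} (hx : ∀ j, |x j| ≤ 1) (j : Fin s) (p : Mon s) :
    |wt x j p| ≤ 2 := by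
  unfold wt
  refine (abs_add_le _ _).trans ?_
  have h1 : |(if p.1.1 = j then x p.1.2 else 0)| ≤ 1 := by
    split_ifs
    · exact hx _
    · simp
  have h2 : |(if p.1.2 = j then x p.1.1 else 0)| ≤ 1 := by
    split_ifs
    · exact hx _
    · simp
  linarith

lemma dq_split {n : ℕ} (i₀ : Fin (n + 1)) (f : Mon (n + 1) → ℝ) (x : Fin (n + 1) → ℝ)
    (hx : x i₀ = 1) (j : Fin n) :
    dq f x (i₀.succAbove j) = f (mon i₀ (i₀.succAbove j)) +
      ∑ p ∈ Finset.univ \ PP i₀, f p * wt x (i₀.succAbove j) p := by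
  have hw : ∀ l, wt x (i₀.succAbove j) (mon i₀ l) = if l = i₀.succAbove j then 1 else 0 := by
    intro l
    have h1 := mon_sym (fun a b => (if a = i₀.succAbove j then x b else 0) +
      (if b = i₀.succAbove j then x a else 0)) (fun a b => add_comm _ _) i₀ l
    unfold wt
    rw [h1]
    have h2 : ¬ i₀ = i₀.succAbove j := (Fin.succAbove_ne i₀ j).symm
    rw [if_neg h2, zero_add, hx]
  have h0 : dq f x (i₀.succAbove j) = ∑ p, f p * wt x (i₀.succAbove j) p := rfl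
  rw [h0, sum_split i₀, hw, if_neg (Fin.succAbove_ne i₀ j).symm, mul_zero, zero_add, add_comm]
  congr 1
  rw [Finset.sum_eq_single j]
  · rw [hw, if_pos rfl, mul_one]
  · intro l _ hl
    rw [hw, if_neg (fun h => hl (Fin.succAbove_right_injective h)), mul_zero]
  · intro h
    exact absurd (Finset.mem_univ _) h

/-- the number of integers in a real interval -/
lemma card_int_le (r R : ℝ) (hR : 0 ≤ R) (S : Finset ℤ) (h : ∀ t ∈ S, |(t : ℝ) + r| ≤ R) :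
    (S.card : ℝ) ≤ 2 * R + 1 := by
  have h1 : S ⊆ Finset.Icc ⌈-R - r⌉ ⌊R - r⌋ := by
    intro t ht
    have := abs_le.1 (h t ht)
    rw [Finset.mem_Icc, Int.ceil_le, Int.le_floor]
    constructor <;> linarith [this.1, this.2]
  have h2 := Finset.card_le_card h1
  rw [Int.card_Icc] at h2
  have h3 : ((⌊R - r⌋ + 1 - ⌈-R - r⌉).toNat : ℝ) ≤ 2 * R + 1 := by
    by_cases h4 : 0 ≤ ⌊R - r⌋ + 1 - ⌈-R - r⌉
    · have h5 : (((⌊R - r⌋ + 1 - ⌈-R - r⌉).toNat : ℤ) : ℝ) =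
          ((⌊R - r⌋ + 1 - ⌈-R - r⌉ : ℤ) : ℝ) := by rw [Int.toNat_of_nonneg h4]
      rw [← Int.cast_natCast, h5]
      push_cast
      have := Int.floor_le (R - r)
      have := Int.le_ceil (-R - r)
      linarith
    · rw [Int.toNat_of_nonpos (by omega)]
      push_cast
      linarith
  exact le_trans (by exact_mod_cast h2) h3

/-- the pairs which differ only at the square of the variable with value one -/
lemma fib_sq {n : ℕ} (i₀ : Fin (n + 1)) (x : Fin (n + 1) → ℝ) (hx : x i₀ = 1) (R : ℝ)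
    (hR : 0 ≤ R) (S : Finset (Fin 2 → Mon (n + 1) → ℤ)) (e₁ : Fin 2 → Mon (n + 1) → ℤ)
    (h : ∀ e ∈ S, ∀ i p, p ≠ mon i₀ i₀ → e i p = e₁ i p)
    (hq : ∀ e ∈ S, ∀ i, |qf (cm ℝ e i) x| ≤ R) : S.card ≤ ⌊2 * R + 1⌋₊ ^ 2 := by
  classical
  have hm : x (mon i₀ i₀).1.1 * x (mon i₀ i₀).1.2 = 1 := by
    have h1 : x (mon i₀ i₀).1.1 * x (mon i₀ i₀).1.2 = x i₀ * x i₀ :=
      mon_sym (fun a b => x a * x b) (fun a b => mul_comm _ _) i₀ i₀
    rw [h1, hx, one_mul]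
  have hval : ∀ e ∈ S, ∀ i, qf (cm ℝ e i) x = ((e i (mon i₀ i₀) : ℤ) : ℝ) +
      (qf (cm ℝ e₁ i) x - ((e₁ i (mon i₀ i₀) : ℤ) : ℝ)) := by
    intro e he i
    unfold qf
    rw [← Finset.add_sum_erase Finset.univ _ (Finset.mem_univ (mon i₀ i₀)),
      ← Finset.add_sum_erase Finset.univ (fun p => cm ℝ e₁ i p * (x p.1.1 * x p.1.2))
        (Finset.mem_univ (mon i₀ i₀)), hm]
    have h2 : ∑ p ∈ Finset.univ.erase (mon i₀ i₀), cm ℝ e i p * (x p.1.1 * x p.1.2) =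
        ∑ p ∈ Finset.univ.erase (mon i₀ i₀), cm ℝ e₁ i p * (x p.1.1 * x p.1.2) := by
      refine Finset.sum_congr rfl fun p hp => ?_
      have h3 := h e he i p (Finset.ne_of_mem_erase hp)
      unfold cm
      rw [h3]
    rw [h2]
    unfold cm
    ring
  have hI : ∀ i, (S.image fun e => e i (mon i₀ i₀)).card ≤ ⌊2 * R + 1⌋₊ := by
    intro i
    apply Nat.le_floor
    refine card_int_le (qf (cm ℝ e₁ i) x - ((e₁ i (mon i₀ i₀) : ℤ) : ℝ)) R hR _ ?_
    intro u hu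
    rw [Finset.mem_image] at hu
    obtain ⟨e, he, rfl⟩ := hu
    rw [← hval e he i]
    exact hq e he i
  have hle : S.card ≤ ((S.image fun e => e 0 (mon i₀ i₀)) ×ˢ
      (S.image fun e => e 1 (mon i₀ i₀))).card := by
    refine Finset.card_le_card_of_injOn
      (fun e => (e 0 (mon i₀ i₀), e 1 (mon i₀ i₀))) ?_ ?_
    · intro e he
      exact Finset.mem_coe.2 (Finset.mem_product.2
        ⟨Finset.mem_image_of_mem _ he, Finset.mem_image_of_mem _ he⟩)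
    · intro e he e' he' hee
      have h0 : e 0 (mon i₀ i₀) = e' 0 (mon i₀ i₀) := congrArg Prod.fst hee
      have h1 : e 1 (mon i₀ i₀) = e' 1 (mon i₀ i₀) := congrArg Prod.snd hee
      have h01 : ∀ i, e i (mon i₀ i₀) = e' i (mon i₀ i₀) := Fin.forall_fin_two.2 ⟨h0, h1⟩
      funext i p
      by_cases hp : p = mon i₀ i₀
      · rw [hp]
        exact h01 i
      · rw [h e he i p hp, h e' he' i p hp]
  rw [Finset.card_product] at hle
  calc _ ≤ _ := hle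
    _ ≤ ⌊2 * R + 1⌋₊ * ⌊2 * R + 1⌋₊ := Nat.mul_le_mul (hI 0) (hI 1)
    _ = ⌊2 * R + 1⌋₊ ^ 2 := by ring

lemma a_bd {n : ℕ} (i₀ : Fin (n + 1)) (x : Fin (n + 1) → ℝ) (hx : ∀ j, |x j| ≤ 1) (A : ℕ)
    (f : Mon (n + 1) → ℤ) (hf : ∀ p, |(f p : ℝ)| ≤ A) (j : Fin (n + 1)) :
    |∑ p ∈ Finset.univ \ PP i₀, (f p : ℝ) * wt x j p| ≤ 2 * md (n + 1) * A := by
  refine (Finset.abs_sum_le_sum_abs _ _).trans ?_
  calc ∑ p ∈ Finset.univ \ PP i₀, |(f p : ℝ) * wt x j p|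
      ≤ ∑ _p ∈ Finset.univ \ PP i₀, ((A : ℝ) * 2) := by
        refine Finset.sum_le_sum fun p _ => ?_
        rw [abs_mul]
        exact mul_le_mul (hf p) (wt_le hx _ _) (abs_nonneg _) (by positivity)
    _ = ((Finset.univ \ PP i₀).card : ℝ) * (A * 2) := by
        rw [Finset.sum_const, nsmul_eq_mul]
    _ ≤ (md (n + 1) : ℝ) * (A * 2) := by
        apply mul_le_mul_of_nonneg_right _ (by positivity)
        have : (Finset.univ \ PP i₀).card ≤ md (n + 1) := by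
          unfold md
          rw [← Finset.card_univ]
          exact Finset.card_le_card (Finset.sdiff_subset)
        exact_mod_cast this
    _ = 2 * md (n + 1) * A := by ring

/-- the pairs with given coefficients at the monomials which do not contain the index -/
lemma fib_all {n : ℕ} (i₀ : Fin (n + 1)) (x : Fin (n + 1) → ℝ) (hx0 : x i₀ = 1)
    (hx1 : ∀ j, |x j| ≤ 1) (A : ℕ) (K' M R X : ℝ) (hK' : 2 * md (n + 1) ≤ K') (hR : 0 ≤ R)
    (hX : ∀ a b : Fin n → ℝ, (∀ j, |a j| ≤ K' * A) → (∀ j, |b j| ≤ K' * A) →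
    ({q : (Fin n → ℤ) × (Fin n → ℤ) | (∀ j, |q.1 j| ≤ A ∧ |q.2 j| ≤ A) ∧
      ∀ j l, |(q.1 j + a j) * (q.2 l + b l) - (q.1 l + a l) * (q.2 j + b j)| ≤ M}.ncard : ℝ) ≤ X)
    (Eb : Finset (Fin 2 → Mon (n + 1) → ℤ)) (e₀ : Fin 2 → Mon (n + 1) → ℤ) (he₀ : e₀ ∈ Eb)
    (hc : ∀ e ∈ Eb, ∀ i, ∀ p ∉ PP i₀, e i p = e₀ i p)
    (hA : ∀ e ∈ Eb, ∀ i p, |((e i p : ℤ) : ℝ)| ≤ A)
    (hq : ∀ e ∈ Eb, ∀ i, |qf (cm ℝ e i) x| ≤ R)
    (hj : ∀ e ∈ Eb, ∀ j l, |jm (cm ℝ e) x j l| ≤ M) :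
    (Eb.card : ℝ) ≤ (2 * R + 1) ^ 2 * X := by
  classical
  obtain ⟨a, ha⟩ : ∃ a : Fin 2 → Fin n → ℝ, ∀ i j, a i j =
      ∑ p ∈ Finset.univ \ PP i₀, ((e₀ i p : ℤ) : ℝ) * wt x (i₀.succAbove j) p :=
    ⟨_, fun _ _ => rfl⟩
  have hab : ∀ i j, |a i j| ≤ K' * A := by
    intro i j
    rw [ha]
    refine (a_bd i₀ x hx1 A (e₀ i) (hA e₀ he₀ i) _).trans ?_
    exact mul_le_mul_of_nonneg_right hK' (by positivity)
  have h1 := hX (a 0) (a 1) (hab 0) (hab 1)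
  obtain ⟨F, hF⟩ : ∃ F : (Fin 2 → Mon (n + 1) → ℤ) → (Fin n → ℤ) × (Fin n → ℤ), ∀ e, F e =
      (fun j => e 0 (mon i₀ (i₀.succAbove j)), fun j => e 1 (mon i₀ (i₀.succAbove j))) :=
    ⟨_, fun _ => rfl⟩
  have hdq : ∀ e ∈ Eb, ∀ i j, dq (cm ℝ e i) x (i₀.succAbove j) =
      ((e i (mon i₀ (i₀.succAbove j)) : ℤ) : ℝ) + a i j := by
    intro e he i j
    rw [dq_split i₀ _ x hx0 j, ha]
    congr 1
    refine Finset.sum_congr rfl fun p hp => ?_
    unfold cm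
    rw [hc e he i p (Finset.mem_sdiff.1 hp).2]
  obtain ⟨t, ht⟩ : ∃ t : Finset ((Fin n → ℤ) × (Fin n → ℤ)), ∀ q, q ∈ t ↔
      (∀ j, |q.1 j| ≤ A ∧ |q.2 j| ≤ A) ∧ ∀ j l, |(q.1 j + a 0 j) * (q.2 l + a 1 l) -
        (q.1 l + a 0 l) * (q.2 j + a 1 j)| ≤ M := by
    refine ⟨(vb n A ×ˢ vb n A).filter fun q => ∀ j l, |(q.1 j + a 0 j) * (q.2 l + a 1 l) -
        (q.1 l + a 0 l) * (q.2 j + a 1 j)| ≤ M, fun q => ?_⟩
    rw [Finset.mem_filter, Finset.mem_product]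
    unfold vb
    rw [Fintype.mem_piFinset, Fintype.mem_piFinset]
    refine and_congr_left fun _ => ?_
    constructor
    · rintro ⟨h3, h4⟩ j
      exact ⟨abs_le.2 (Finset.mem_Icc.1 (h3 j)), abs_le.2 (Finset.mem_Icc.1 (h4 j))⟩
    · intro h3
      exact ⟨fun j => Finset.mem_Icc.2 (abs_le.1 (h3 j).1),
        fun j => Finset.mem_Icc.2 (abs_le.1 (h3 j).2)⟩
  have htc : (t.card : ℝ) ≤ X := by
    have h2 : {q : (Fin n → ℤ) × (Fin n → ℤ) | (∀ j, |q.1 j| ≤ A ∧ |q.2 j| ≤ A) ∧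
        ∀ j l, |(q.1 j + a 0 j) * (q.2 l + a 1 l) - (q.1 l + a 0 l) * (q.2 j + a 1 j)| ≤ M} =
        (t : Set _) := Set.ext fun q => (ht q).symm
    rw [h2, Set.ncard_coe_finset] at h1
    exact h1
  have hFt : ∀ e ∈ Eb, F e ∈ t := by
    intro e he
    rw [ht, hF]
    refine ⟨fun j => ⟨?_, ?_⟩, fun j l => ?_⟩
    · exact_mod_cast hA e he 0 (mon i₀ (i₀.succAbove j))
    · exact_mod_cast hA e he 1 (mon i₀ (i₀.succAbove j))
    · have h3 := hj e he (i₀.succAbove j) (i₀.succAbove l)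
      unfold jm at h3
      rw [hdq e he, hdq e he, hdq e he, hdq e he] at h3
      exact h3
  have hfib2 : ∀ q ∈ t, (Eb.filter fun e => F e = q).card ≤ ⌊2 * R + 1⌋₊ ^ 2 := by
    intro q _
    rcases Finset.eq_empty_or_nonempty (Eb.filter fun e => F e = q) with h0 | ⟨e₁, he₁⟩
    · rw [h0, Finset.card_empty]
      exact Nat.zero_le _
    refine fib_sq i₀ x hx0 R hR _ e₁ ?_ fun e he => hq e (Finset.mem_filter.1 he).1
    intro e he i p hp
    rw [Finset.mem_filter] at he he₁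
    by_cases hpP : p ∈ PP i₀
    · unfold PP at hpP
      rw [Finset.mem_image] at hpP
      obtain ⟨l, -, rfl⟩ := hpP
      have hFF : F e = F e₁ := he.2.trans he₁.2.symm
      rw [hF, hF] at hFF
      rcases Fin.eq_self_or_eq_succAbove i₀ l with hl | ⟨j, hl⟩
      · rw [hl] at hp
        exact absurd rfl hp
      · rw [hl]
        have h4 : e 0 (mon i₀ (i₀.succAbove j)) = e₁ 0 (mon i₀ (i₀.succAbove j)) :=
          congrFun (congrArg Prod.fst hFF) j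
        have h5 : e 1 (mon i₀ (i₀.succAbove j)) = e₁ 1 (mon i₀ (i₀.succAbove j)) :=
          congrFun (congrArg Prod.snd hFF) j
        have h6 : ∀ i, e i (mon i₀ (i₀.succAbove j)) = e₁ i (mon i₀ (i₀.succAbove j)) :=
          Fin.forall_fin_two.2 ⟨h4, h5⟩
        exact h6 i
    · rw [hc e he.1 i p hpP, hc e₁ he₁.1 i p hpP]
  have hcard := Finset.card_le_mul_card_image_of_maps_to hFt _ hfib2
  have hmr : (⌊2 * R + 1⌋₊ : ℝ) ≤ 2 * R + 1 := Nat.floor_le (by positivity)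
  have hX0 : 0 ≤ X := le_trans (by positivity) htc
  calc (Eb.card : ℝ) ≤ (⌊2 * R + 1⌋₊ : ℝ) ^ 2 * t.card := by exact_mod_cast hcard
    _ ≤ (2 * R + 1) ^ 2 * X := by
        apply mul_le_mul _ htc (by positivity) (by positivity)
        exact pow_le_pow_left₀ (by positivity) hmr 2

theorem pf_RFX (hFIB : T_FIB) (hRUV : T_RUV) : T_RFX := by
  classical
  intro s K hs hK
  obtain ⟨n, rfl⟩ : ∃ n, s = n + 1 := ⟨s - 1, by omega⟩
  obtain ⟨K', hK'⟩ : ∃ K' : ℝ, K' = K + 2 * md (n + 1) := ⟨_, rfl⟩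
  have hmd0 : (0 : ℝ) ≤ 2 * md (n + 1) := by positivity
  have hKK : K ≤ K' := by
    rw [hK']
    linarith
  obtain ⟨CR, hCR, hRR⟩ := hRUV n K' (by omega) (hK.trans hKK)
  refine ⟨9 * K ^ 2 * CR + CR + 1, by positivity, ?_⟩
  intro A N hN hCN i₀ x hx0 hx1
  have hNr : (1 : ℝ) ≤ N := by exact_mod_cast hN
  have hN0 : (0 : ℝ) < N := by linarith
  have hK2 : 0 ≤ 9 * K ^ 2 * CR := by positivity
  have hCRN : CR * N ≤ A := by
    refine le_trans ?_ hCN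
    apply mul_le_mul_of_nonneg_right _ hN0.le
    linarith
  have hNA : (N : ℝ) ≤ A := by
    refine le_trans ?_ hCN
    have : (1 : ℝ) ≤ 9 * K ^ 2 * CR + CR + 1 := by linarith
    calc (N : ℝ) = 1 * N := (one_mul _).symm
      _ ≤ _ := mul_le_mul_of_nonneg_right this hN0.le
  obtain ⟨E, hE⟩ : ∃ E, E = (bx (n + 1) A).filter fun c => (∀ i, |qf (cm ℝ c i) x| ≤ K * A / N) ∧
      ∀ j l, |jm (cm ℝ c) x j l| ≤ K * (A : ℝ) ^ 2 / N := ⟨_, rfl⟩
  rw [← hE]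
  have hEI : ∀ e ∈ E, ∀ i p, e i p ∈ Finset.Icc (-(A : ℤ)) A := by
    intro e he i p
    rw [hE, Finset.mem_filter] at he
    have h1 := he.1
    unfold bx at h1
    rw [Fintype.mem_piFinset] at h1
    have h2 := h1 i
    rw [Fintype.mem_piFinset] at h2
    exact h2 p
  have hEA : ∀ e ∈ E, ∀ i p, |((e i p : ℤ) : ℝ)| ≤ A := by
    intro e he i p
    have h3 := Finset.mem_Icc.1 (hEI e he i p)
    rw [abs_le]
    constructor
    · exact_mod_cast h3.1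
    · exact_mod_cast h3.2
  have hKA : 0 ≤ K * A / N := by positivity
  have hKA1 : 1 ≤ K * A / N := by
    rw [le_div_iff₀ hN0, one_mul]
    calc (N : ℝ) ≤ A := hNA
      _ = 1 * A := (one_mul _).symm
      _ ≤ K * A := mul_le_mul_of_nonneg_right hK (by positivity)
  obtain ⟨X, hX⟩ : ∃ X : ℝ, X = CR * (A : ℝ) ^ (2 * n) / (N : ℝ) ^ (n - 1) := ⟨_, rfl⟩
  have hX0 : 0 ≤ X := by rw [hX]; positivity
  have hM : K * (A : ℝ) ^ 2 / N ≤ K' * (A : ℝ) ^ 2 / N := by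
    apply div_le_div_of_nonneg_right _ hN0.le
    exact mul_le_mul_of_nonneg_right hKK (by positivity)
  have hRX : ∀ a b : Fin n → ℝ, (∀ j, |a j| ≤ K' * A) → (∀ j, |b j| ≤ K' * A) →
      ({q : (Fin n → ℤ) × (Fin n → ℤ) | (∀ j, |q.1 j| ≤ A ∧ |q.2 j| ≤ A) ∧
      ∀ j l, |(q.1 j + a j) * (q.2 l + b l) - (q.1 l + a l) * (q.2 j + b j)| ≤
        K' * (A : ℝ) ^ 2 / N}.ncard : ℝ) ≤ X := by
    intro a b ha hb
    rw [hX, le_div_iff₀ (by positivity)]
    exact hRR A N hN hCRN a b ha hb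
  have hfib : ∀ c : Fin 2 → Mon (n + 1) → ℤ,
      (E.filter fun e => ∀ i, ∀ p, p ∉ PP i₀ → e i p = c i p).card ≤
        ⌊(3 * (K * A / N)) ^ 2 * X⌋₊ := by
    intro c
    rcases Finset.eq_empty_or_nonempty
      (E.filter fun e => ∀ i, ∀ p, p ∉ PP i₀ → e i p = c i p) with h0 | ⟨e₀, he₀⟩
    · rw [h0, Finset.card_empty]
      exact Nat.zero_le _
    apply Nat.le_floor
    have h1 := fib_all i₀ x hx0 hx1 A K' (K' * (A : ℝ) ^ 2 / N) (K * A / N) X
      (by rw [hK']; linarith) hKA hRX _ e₀ he₀ (fun e he i p hp => by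
        rw [(Finset.mem_filter.1 he).2 i p hp, (Finset.mem_filter.1 he₀).2 i p hp])
      (fun e he => hEA e (Finset.mem_filter.1 he).1)
      (fun e he => by
        have h2 := (Finset.mem_filter.1 he).1
        rw [hE, Finset.mem_filter] at h2
        exact h2.2.1)
      (fun e he j l => by
        have h2 := (Finset.mem_filter.1 he).1
        rw [hE, Finset.mem_filter] at h2
        exact (h2.2.2 j l).trans hM)
    refine h1.trans ?_
    apply mul_le_mul_of_nonneg_right _ hX0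
    apply pow_le_pow_left₀ (by positivity)
    linarith
  have hXc : (Finset.Icc (-(A : ℤ)) A).card = 2 * A + 1 := by
    rw [Int.card_Icc]
    omega
  have hfin := hFIB ℤ (n + 1) ⌊(3 * (K * A / N)) ^ 2 * X⌋₊ (Finset.Icc (-(A : ℤ)) A) (PP i₀) E
    hEI hfib
  rw [hXc, card_PP] at hfin
  have hmd : n + 1 ≤ md (n + 1) := by
    have h1 := Finset.card_le_univ (PP i₀)
    rw [card_PP] at h1
    exact h1
  have hB0 : 0 ≤ (3 * (K * A / N)) ^ 2 * X := by positivity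
  have hfinr : (E.card : ℝ) ≤ (3 * (K * A / N)) ^ 2 * X *
      (2 * (A : ℝ) + 1) ^ (2 * (md (n + 1) - (n + 1))) := by
    calc (E.card : ℝ) ≤ (⌊(3 * (K * A / N)) ^ 2 * X⌋₊ : ℝ) *
          (2 * (A : ℝ) + 1) ^ (2 * (md (n + 1) - (n + 1))) := by
          exact_mod_cast hfin
      _ ≤ _ := by
          apply mul_le_mul_of_nonneg_right (Nat.floor_le hB0) (by positivity)
  have hBN : (3 * (K * A / N)) ^ 2 * X * (N : ℝ) ^ (n + 1) =
      9 * K ^ 2 * CR * (A : ℝ) ^ (2 * (n + 1)) := by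
    rw [hX]
    have h1 : n + 1 = (n - 1) + 2 := by omega
    have h2 : (N : ℝ) ^ (n + 1) = (N : ℝ) ^ (n - 1) * (N : ℝ) ^ 2 := by
      rw [h1, pow_add]
    rw [h2]
    have h3 : (N : ℝ) ^ (n - 1) ≠ 0 := by positivity
    have h4 : (N : ℝ) ≠ 0 := hN0.ne'
    have h5 : (A : ℝ) ^ (2 * (n + 1)) = (A : ℝ) ^ (2 * n) * (A : ℝ) ^ 2 := by
      rw [← pow_add]
      rfl
    rw [h5]
    field_simp
    ring
  calc (E.card : ℝ) * (N : ℝ) ^ (n + 1)
      ≤ (3 * (K * A / N)) ^ 2 * X * (2 * (A : ℝ) + 1) ^ (2 * (md (n + 1) - (n + 1))) *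
        (N : ℝ) ^ (n + 1) := mul_le_mul_of_nonneg_right hfinr (by positivity)
    _ = ((3 * (K * A / N)) ^ 2 * X * (N : ℝ) ^ (n + 1)) *
        (2 * (A : ℝ) + 1) ^ (2 * (md (n + 1) - (n + 1))) := by ring
    _ = 9 * K ^ 2 * CR * ((A : ℝ) ^ (2 * (n + 1)) *
        (2 * (A : ℝ) + 1) ^ (2 * (md (n + 1) - (n + 1)))) := by rw [hBN]; ring
    _ ≤ 9 * K ^ 2 * CR * ((2 * (A : ℝ) + 1) ^ (2 * (n + 1)) *
        (2 * (A : ℝ) + 1) ^ (2 * (md (n + 1) - (n + 1)))) := by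
        apply mul_le_mul_of_nonneg_left _ hK2
        apply mul_le_mul_of_nonneg_right _ (by positivity)
        apply pow_le_pow_left₀ (by positivity)
        have : (0 : ℝ) ≤ A := by positivity
        linarith
    _ = 9 * K ^ 2 * CR * (2 * (A : ℝ) + 1) ^ (2 * md (n + 1)) := by
        have h5 : 2 * (n + 1) + 2 * (md (n + 1) - (n + 1)) = 2 * md (n + 1) := by omega
        rw [← pow_add, h5]
    _ ≤ (9 * K ^ 2 * CR + CR + 1) * (2 * (A : ℝ) + 1) ^ (2 * md (n + 1)) := by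
        apply mul_le_mul_of_nonneg_right _ (by positivity)
        linarith

end Pool.Agent.H58.RQ
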