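import Pool.Agent.H32.RQ.Targets
import Pool.Agent.H58.RQ.PAG

/-!
# SEC: the second moment
-/

set_option autoImplicit false

open Finset Pool.Agent.H32.RQ

namespace Pool.Agent.H58.RQ

lemma gm_pos {s : ℕ} {x y : Fin s → ℤ} (h : dm x y ≠ 0) : 1 ≤ gm x y := by
  rw [Nat.one_le_iff_ne_zero]
  intro h0
  apply h
  apply dm_eq_zero
  intro i j
  have := gm_dvd x y i j
  rw [h0] at this
  simpa using this

lemma gm_le_dm {s : ℕ} {x y : Fin s → ℤ} (h : dm x y ≠ 0) : gm x y ≤ dm x y := by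
  by_contra hcon
  push Not at hcon
  apply h
  apply dm_eq_zero
  intro i j
  refine Int.eq_zero_of_abs_lt_dvd (gm_dvd x y i j) ?_
  rw [Int.abs_eq_natAbs]
  exact_mod_cast lt_of_le_of_lt (le_dm x y i j) hcon

lemma dm_le {s : ℕ} {B : ℕ} {x y : Fin s → ℤ} (hx : ∀ i, |x i| ≤ B) (hy : ∀ i, |y i| ≤ B) :
    dm x y ≤ 2 * B ^ 2 := by
  unfold dm
  refine Finset.sup_le fun p _ => ?_
  have h1 : |mnr x y p.1 p.2| ≤ 2 * (B : ℤ) ^ 2 := by
    unfold mnr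
    calc |x p.1 * y p.2 - x p.2 * y p.1| ≤ |x p.1 * y p.2| + |x p.2 * y p.1| := abs_sub _ _
      _ = |x p.1| * |y p.2| + |x p.2| * |y p.1| := by rw [abs_mul, abs_mul]
      _ ≤ B * B + B * B := by
          apply add_le_add
          · exact mul_le_mul (hx _) (hy _) (abs_nonneg _) (by positivity)
          · exact mul_le_mul (hx _) (hy _) (abs_nonneg _) (by positivity)
      _ = 2 * (B : ℤ) ^ 2 := by ring
  rw [Int.abs_eq_natAbs] at h1
  exact_mod_cast h1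

lemma card_GS_le (s b c : ℕ) : (GS s b c).card ≤ (2 * b ^ 4 + 1) ^ s := by
  classical
  unfold GS
  refine (Finset.card_filter_le _ _).trans (le_of_eq ?_)
  unfold vb
  rw [Fintype.card_piFinset_const, Int.card_Icc]
  congr 1
  generalize b ^ 4 = n
  omega

lemma sec_dep (hPKP : T_PKP) (hDIA : T_DIA) (hDEP : T_DEP) {s b c A J Q W T : ℕ} [NeZero Q]
    (hs : 6 ≤ s) (hb : 1 ≤ b) (hA : 9 ≤ A) (hc : 9 * b ^ 4 ≤ c * A) (hQ : Q = 2 * A * J)
    (hJ : 2 * b ^ 16 ≤ J) (hW : 1 ≤ W) (hWQ : W ∣ Q) (hTQ : T ∣ Q) (hWT : 2 * W ≤ T) :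
    ∑ q ∈ (GS s b c ×ˢ GS s b c).filter (fun q => ¬ dm q.1 q.2 ≠ 0),
      2 * pk Q J W T q.1 q.2 * pp Q J q.1 q.2 ≤
      324 * 3 ^ s * ((b : ℝ) ^ (4 * (s - 4)) / (2 * A) ^ 2) := by
  classical
  have hGd : ∀ x ∈ GS s b c, Gd b c x := by
    intro x hx
    unfold GS at hx
    exact (Finset.mem_filter.1 hx).2
  have hb16 : b ^ 8 ≤ J := by
    have h1 : b ^ 8 ≤ b ^ 16 := Nat.pow_le_pow_right hb (by norm_num)
    omega
  have hJ1 : 1 ≤ J := le_trans (Nat.one_le_pow _ _ hb) hb16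
  set P := (GS s b c ×ˢ GS s b c).filter (fun q => ¬ dm q.1 q.2 ≠ 0) with hP
  have hAr : (9 : ℝ) ≤ A := by exact_mod_cast hA
  have hbr : (1 : ℝ) ≤ b := by exact_mod_cast hb
  have hA0 : (0 : ℝ) < 2 * A := by linarith
  have hb0 : (0 : ℝ) < b := by linarith
  have hterm : ∀ q ∈ P, 2 * pk Q J W T q.1 q.2 * pp Q J q.1 q.2 ≤
      162 / ((2 * (A : ℝ)) ^ 2 * (b : ℝ) ^ 16) := by
    intro q hq
    rw [hP, Finset.mem_filter, Finset.mem_product, not_not] at hq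
    obtain ⟨⟨h1, h2⟩, h3⟩ := hq
    have hyx := hDEP s q.1 q.2 (hGd _ h1).prm (hGd _ h2).prm h3
    obtain ⟨k1, k2⟩ := hPKP s Q J W T q.1 q.2 hJ1 hW hWQ hTQ hWT
    have k3 := hDIA s b c A J Q q.1 q.2 (by omega) hb hA hc hQ hb16 (hGd _ h1) hyx
    have k4 : pp Q J q.1 q.2 ≤ 9 / (2 * A * (b : ℝ) ^ 8) := by
      rw [le_div_iff₀ (by positivity)]
      exact k3
    have k5 : 0 ≤ pp Q J q.1 q.2 := k1.trans k2
    calc 2 * pk Q J W T q.1 q.2 * pp Q J q.1 q.2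
        ≤ 2 * pp Q J q.1 q.2 * pp Q J q.1 q.2 := by
          apply mul_le_mul_of_nonneg_right _ k5
          linarith
      _ ≤ 2 * (9 / (2 * A * (b : ℝ) ^ 8)) * (9 / (2 * A * (b : ℝ) ^ 8)) := by
          apply mul_le_mul _ k4 k5 (by positivity)
          linarith
      _ = 162 / ((2 * (A : ℝ)) ^ 2 * (b : ℝ) ^ 16) := by
          field_simp
          norm_num
  have hcard : P.card ≤ (2 * b ^ 4 + 1) ^ s * 2 := by
    have h1 : P.card ≤ (GS s b c ×ˢ (Finset.univ : Finset Bool)).card := by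
      refine Finset.card_le_card_of_injOn (fun q => (q.1, decide (q.2 = q.1))) ?_ ?_
      · intro q hq
        have hq' : q ∈ P := hq
        rw [hP, Finset.mem_filter, Finset.mem_product] at hq'
        simp only [Finset.coe_product, Set.mem_prod, Finset.mem_coe, Finset.mem_univ, and_true]
        exact hq'.1.1
      · intro q hq q' hq' h
        have e1 : q ∈ P := hq
        have e2 : q' ∈ P := hq'
        rw [hP, Finset.mem_filter, Finset.mem_product, not_not] at e1 e2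
        have f1 := hDEP s q.1 q.2 (hGd _ e1.1.1).prm (hGd _ e1.1.2).prm e1.2
        have f2 := hDEP s q'.1 q'.2 (hGd _ e2.1.1).prm (hGd _ e2.1.2).prm e2.2
        simp only [Prod.mk.injEq, decide_eq_decide] at h
        obtain ⟨h1, h2⟩ := h
        refine Prod.ext h1 ?_
        by_cases h3 : q.2 = q.1
        · rw [h3, h2.1 h3, h1]
        · have h4 : ¬ q'.2 = q'.1 := fun h => h3 (h2.2 h)
          rcases f1 with f1 | f1
          · exact absurd f1 h3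
          rcases f2 with f2 | f2
          · exact absurd f2 h4
          rw [f1, f2, h1]
    rw [Finset.card_product, Finset.card_univ, Fintype.card_bool] at h1
    exact h1.trans (Nat.mul_le_mul_right _ (card_GS_le s b c))
  have hcard2 : (P.card : ℝ) ≤ 3 ^ s * (b : ℝ) ^ (4 * s) * 2 := by
    have h1 : (P.card : ℝ) ≤ (2 * (b : ℝ) ^ 4 + 1) ^ s * 2 := by exact_mod_cast hcard
    refine h1.trans ?_
    apply mul_le_mul_of_nonneg_right _ (by norm_num)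
    rw [pow_mul, ← mul_pow]
    apply pow_le_pow_left₀ (by positivity)
    have : (1 : ℝ) ≤ (b : ℝ) ^ 4 := one_le_pow₀ hbr
    linarith
  calc ∑ q ∈ P, 2 * pk Q J W T q.1 q.2 * pp Q J q.1 q.2
      ≤ ∑ _q ∈ P, 162 / ((2 * (A : ℝ)) ^ 2 * (b : ℝ) ^ 16) := Finset.sum_le_sum hterm
    _ = P.card * (162 / ((2 * (A : ℝ)) ^ 2 * (b : ℝ) ^ 16)) := by
        rw [Finset.sum_const, nsmul_eq_mul]
    _ ≤ 3 ^ s * (b : ℝ) ^ (4 * s) * 2 * (162 / ((2 * (A : ℝ)) ^ 2 * (b : ℝ) ^ 16)) :=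
        mul_le_mul_of_nonneg_right hcard2 (by positivity)
    _ = 324 * 3 ^ s * ((b : ℝ) ^ (4 * (s - 4)) / (2 * A) ^ 2) := by
        have h2 : (b : ℝ) ^ (4 * s) = (b : ℝ) ^ (4 * (s - 4)) * (b : ℝ) ^ 16 := by
          rw [← pow_add]
          congr 1
          omega
        rw [h2]
        field_simp
        norm_num

theorem pf_SEC (hPAG : T_PAG) (hSMM : T_SMM) (hPBD : T_PBD) (hPKP : T_PKP) (hDIA : T_DIA)
    (hDEP : T_DEP) : T_SEC := by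
  classical
  intro s hs
  obtain ⟨CS, hCS, hS⟩ := hSMM s hs
  set C' : ℝ := 2 * 576 ^ 2 * CS * (10 * s * 9 ^ (s - 1)) * 2 ^ (s - 3) with hC'
  have hC'0 : 0 < C' := by
    have : (0 : ℝ) < s := by exact_mod_cast (by omega : 0 < s)
    positivity
  refine ⟨324 * 3 ^ s + 128 * C', by positivity, ?_⟩
  intro b c A J Q W T w _ δ hb hA hc hQ hJ hW hWQ hTQ hWT hw hgw hδ hT
  have hGd : ∀ x ∈ GS s b c, Gd b c x := by
    intro x hx
    unfold GS at hx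
    exact (Finset.mem_filter.1 hx).2
  have hb16 : b ^ 8 ≤ J := by
    have h1 : b ^ 8 ≤ b ^ 16 := Nat.pow_le_pow_right hb (by norm_num)
    omega
  have hJ1 : 1 ≤ J := le_trans (Nat.one_le_pow _ _ hb) hb16
  have hAr : (9 : ℝ) ≤ A := by exact_mod_cast hA
  have hbr : (1 : ℝ) ≤ b := by exact_mod_cast hb
  have hA0 : (0 : ℝ) < 2 * A := by linarith
  have hb0 : (0 : ℝ) < b := by linarith
  have hwr : (1 : ℝ) ≤ w := by exact_mod_cast hw
  rw [← Finset.sum_product' (f := fun x y => 2 * pk Q J W T x y * pp Q J x y)]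
  rw [← Finset.sum_filter_add_sum_filter_not (GS s b c ×ˢ GS s b c)
    (fun q => dm q.1 q.2 ≠ 0)]
  have hdep := sec_dep hPKP hDIA hDEP hs hb hA hc hQ hJ hW hWQ hTQ hWT
  set P := (GS s b c ×ˢ GS s b c).filter (fun q => dm q.1 q.2 ≠ 0) with hP
  set κ : ℝ := 128 * T / (2 * A) with hκ
  have hκ0 : 0 ≤ κ := by positivity
  have hPm : ∀ q ∈ P, Gd b c q.1 ∧ Gd b c q.2 ∧ dm q.1 q.2 ≠ 0 := by
    intro q hq
    rw [hP, Finset.mem_filter, Finset.mem_product] at hq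
    exact ⟨hGd _ hq.1.1, hGd _ hq.1.2, hq.2⟩
  have hterm : ∀ q ∈ P, 2 * pk Q J W T q.1 q.2 * pp Q J q.1 q.2 ≤
      2 * 576 ^ 2 / ((2 * (A : ℝ)) ^ 4 * (b : ℝ) ^ 16) *
      ((gm q.1 q.2 : ℝ) ^ 2 / (dm q.1 q.2 : ℝ) ^ 2 *
        (if gm q.1 q.2 ∣ W then κ / dm q.1 q.2 else 1)) := by
    intro q hq
    obtain ⟨g1, g2, g3⟩ := hPm q hq
    obtain ⟨k1, k2⟩ := hPKP s Q J W T q.1 q.2 hJ1 hW hWQ hTQ hWT
    obtain ⟨k3, k4⟩ := hPBD s b c A J Q W T q.1 q.2 (by omega) hb (by omega) hc hQ hJ hW hWQ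
      hTQ hWT g1 g2 g3
    have hd : (0 : ℝ) < dm q.1 q.2 := by exact_mod_cast Nat.pos_of_ne_zero g3
    have k5 : pp Q J q.1 q.2 ≤ 576 * gm q.1 q.2 /
        ((2 * (A : ℝ)) ^ 2 * (b : ℝ) ^ 8 * dm q.1 q.2) := by
      rw [le_div_iff₀ (by positivity)]
      exact k3
    have k6 : 0 ≤ pp Q J q.1 q.2 := k1.trans k2
    split_ifs with h
    · have k7 : pk Q J W T q.1 q.2 ≤ 576 * gm q.1 q.2 * (128 * T) /
          ((2 * (A : ℝ)) ^ 2 * (b : ℝ) ^ 8 * dm q.1 q.2 * (2 * A * dm q.1 q.2)) := by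
        rw [le_div_iff₀ (by positivity)]
        have := k4 h
        linarith
      calc 2 * pk Q J W T q.1 q.2 * pp Q J q.1 q.2
          ≤ 2 * (576 * gm q.1 q.2 * (128 * T) /
            ((2 * (A : ℝ)) ^ 2 * (b : ℝ) ^ 8 * dm q.1 q.2 * (2 * A * dm q.1 q.2))) *
            (576 * gm q.1 q.2 / ((2 * (A : ℝ)) ^ 2 * (b : ℝ) ^ 8 * dm q.1 q.2)) := by
            apply mul_le_mul _ k5 k6 (by positivity)
            linarith
        _ = _ := by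
            rw [hκ]
            field_simp
    · calc 2 * pk Q J W T q.1 q.2 * pp Q J q.1 q.2
          ≤ 2 * (576 * gm q.1 q.2 / ((2 * (A : ℝ)) ^ 2 * (b : ℝ) ^ 8 * dm q.1 q.2)) *
            (576 * gm q.1 q.2 / ((2 * (A : ℝ)) ^ 2 * (b : ℝ) ^ 8 * dm q.1 q.2)) := by
            apply mul_le_mul _ k5 k6 (by positivity)
            linarith
        _ = _ := by
            field_simp
  have hM : ∀ q ∈ P, 1 ≤ gm q.1 q.2 ∧ gm q.1 q.2 ≤ dm q.1 q.2 ∧ dm q.1 q.2 ≤ 2 * b ^ 8 := by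
    intro q hq
    obtain ⟨g1, g2, g3⟩ := hPm q hq
    refine ⟨gm_pos g3, gm_le_dm g3, ?_⟩
    have := dm_le (B := b ^ 4) (x := q.1) (y := q.2) (by
      intro i
      push_cast
      exact g1.bd i) (by
      intro i
      push_cast
      exact g2.bd i)
    calc dm q.1 q.2 ≤ 2 * (b ^ 4) ^ 2 := this
      _ = 2 * b ^ 8 := by ring
  have hcount : ∀ g D' : ℕ, 1 ≤ g →
      ((P.filter fun q => gm q.1 q.2 = g ∧ dm q.1 q.2 ≤ D').card : ℝ) ≤
      10 * s * (b : ℝ) ^ 8 * 9 ^ (s - 1) * ((D' : ℝ) / g) ^ (s - 1) := by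
    intro g D' hg
    have h1 := hPAG s b c g D' (by omega) hb hg
    have h2 : (P.filter fun q => gm q.1 q.2 = g ∧ dm q.1 q.2 ≤ D').card ≤
        ((GS s b c ×ˢ GS s b c).filter fun q => dm q.1 q.2 ≠ 0 ∧ g ∣ gm q.1 q.2 ∧
          dm q.1 q.2 ≤ D').card := by
      apply Finset.card_le_card
      intro q hq
      rw [Finset.mem_filter, hP, Finset.mem_filter] at hq
      rw [Finset.mem_filter]
      exact ⟨hq.1.1, hq.1.2, by rw [hq.2.1], hq.2.2⟩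
    calc ((P.filter fun q => gm q.1 q.2 = g ∧ dm q.1 q.2 ≤ D').card : ℝ)
        ≤ (((GS s b c ×ˢ GS s b c).filter fun q => dm q.1 q.2 ≠ 0 ∧ g ∣ gm q.1 q.2 ∧
          dm q.1 q.2 ≤ D').card : ℝ) := by exact_mod_cast h2
      _ ≤ 10 * s * (b : ℝ) ^ 8 * (9 * ((D' : ℝ) / g)) ^ (s - 1) := h1
      _ = 10 * s * (b : ℝ) ^ 8 * 9 ^ (s - 1) * ((D' : ℝ) / g) ^ (s - 1) := by
          rw [mul_pow]
          ring
  have hsum := hS _ P (fun q => gm q.1 q.2) (fun q => dm q.1 q.2) (2 * b ^ 8) W w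
    (10 * s * (b : ℝ) ^ 8 * 9 ^ (s - 1)) κ (by positivity) hκ0 hw hgw hM hcount
  have hκδ : κ ≤ 128 * δ * (b : ℝ) ^ 8 := by
    rw [hκ, div_le_iff₀ hA0]
    nlinarith [hT]
  have hs3 : s - 3 = (s - 4) + 1 := by omega
  have hind : ∑ q ∈ P, 2 * pk Q J W T q.1 q.2 * pp Q J q.1 q.2 ≤
      128 * C' * (((b : ℝ) ^ (4 * (s - 4)) / (2 * A) ^ 2) ^ 2 * (1 / w + δ)) := by
    have hpre : (0 : ℝ) ≤ 2 * 576 ^ 2 / ((2 * (A : ℝ)) ^ 4 * (b : ℝ) ^ 16) := by positivity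
    calc ∑ q ∈ P, 2 * pk Q J W T q.1 q.2 * pp Q J q.1 q.2
        ≤ ∑ q ∈ P, 2 * 576 ^ 2 / ((2 * (A : ℝ)) ^ 4 * (b : ℝ) ^ 16) *
          ((gm q.1 q.2 : ℝ) ^ 2 / (dm q.1 q.2 : ℝ) ^ 2 *
          (if gm q.1 q.2 ∣ W then κ / dm q.1 q.2 else 1)) := Finset.sum_le_sum hterm
      _ = 2 * 576 ^ 2 / ((2 * (A : ℝ)) ^ 4 * (b : ℝ) ^ 16) *
          ∑ q ∈ P, ((gm q.1 q.2 : ℝ) ^ 2 / (dm q.1 q.2 : ℝ) ^ 2 *
          (if gm q.1 q.2 ∣ W then κ / dm q.1 q.2 else 1)) := by rw [Finset.mul_sum]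
      _ ≤ 2 * 576 ^ 2 / ((2 * (A : ℝ)) ^ 4 * (b : ℝ) ^ 16) *
          (CS * (10 * s * (b : ℝ) ^ 8 * 9 ^ (s - 1)) *
          (((2 * b ^ 8 : ℕ) : ℝ) ^ (s - 3) / w + κ * ((2 * b ^ 8 : ℕ) : ℝ) ^ (s - 4))) :=
          mul_le_mul_of_nonneg_left hsum hpre
      _ ≤ 2 * 576 ^ 2 / ((2 * (A : ℝ)) ^ 4 * (b : ℝ) ^ 16) *
          (CS * (10 * s * (b : ℝ) ^ 8 * 9 ^ (s - 1)) *
          (128 * 2 ^ (s - 3) * ((b : ℝ) ^ 8) ^ (s - 3) * (1 / w + δ))) := by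
          apply mul_le_mul_of_nonneg_left _ hpre
          apply mul_le_mul_of_nonneg_left _ (by positivity)
          push_cast
          rw [mul_pow, mul_pow, hs3, pow_succ, pow_succ]
          have hX : (0 : ℝ) ≤ 2 ^ (s - 4) * ((b : ℝ) ^ 8) ^ (s - 4) := by positivity
          have h1 : (2 : ℝ) ^ (s - 4) * 2 * (((b : ℝ) ^ 8) ^ (s - 4) * (b : ℝ) ^ 8) / w ≤
              128 * (2 ^ (s - 4) * 2) * (((b : ℝ) ^ 8) ^ (s - 4) * (b : ℝ) ^ 8) * (1 / w) := by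
            rw [mul_one_div]
            apply div_le_div_of_nonneg_right _ (by positivity)
            have : (0 : ℝ) ≤ (2 : ℝ) ^ (s - 4) * 2 * (((b : ℝ) ^ 8) ^ (s - 4) * (b : ℝ) ^ 8) := by
              positivity
            linarith
          have h2 : κ * (2 ^ (s - 4) * ((b : ℝ) ^ 8) ^ (s - 4)) ≤
              128 * (2 ^ (s - 4) * 2) * (((b : ℝ) ^ 8) ^ (s - 4) * (b : ℝ) ^ 8) * δ := by
            calc κ * (2 ^ (s - 4) * ((b : ℝ) ^ 8) ^ (s - 4))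
                ≤ 128 * δ * (b : ℝ) ^ 8 * (2 ^ (s - 4) * ((b : ℝ) ^ 8) ^ (s - 4)) :=
                  mul_le_mul_of_nonneg_right hκδ hX
              _ ≤ 2 * (128 * δ * (b : ℝ) ^ 8 * (2 ^ (s - 4) * ((b : ℝ) ^ 8) ^ (s - 4))) := by
                  have : (0 : ℝ) ≤ 128 * δ * (b : ℝ) ^ 8 *
                    (2 ^ (s - 4) * ((b : ℝ) ^ 8) ^ (s - 4)) := by positivity
                  linarith
              _ = _ := by ring
          calc _ ≤ _ := add_le_add h1 h2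
            _ = _ := by ring
      _ = 128 * C' * (((b : ℝ) ^ (4 * (s - 4)) / (2 * A) ^ 2) ^ 2 * (1 / w + δ)) := by
          have e1 : ((b : ℝ) ^ 8) ^ (s - 3) = ((b : ℝ) ^ (4 * (s - 4))) ^ 2 * (b : ℝ) ^ 8 := by
            rw [← pow_mul, ← pow_mul, ← pow_add]
            congr 1
            omega
          rw [e1, hC']
          have e2 : (b : ℝ) ^ 16 = (b : ℝ) ^ 8 * (b : ℝ) ^ 8 := by ring
          rw [e2]
          field_simp
  have hpos1 : (0 : ℝ) ≤ ((b : ℝ) ^ (4 * (s - 4)) / (2 * A) ^ 2) ^ 2 * (1 / w + δ) := by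
    positivity
  have hpos2 : (0 : ℝ) ≤ (b : ℝ) ^ (4 * (s - 4)) / (2 * A) ^ 2 := by positivity
  calc _ ≤ _ := add_le_add hind hdep
    _ ≤ (324 * 3 ^ s + 128 * C') * (((b : ℝ) ^ (4 * (s - 4)) / (2 * A) ^ 2) ^ 2 * (1 / w + δ) +
        (b : ℝ) ^ (4 * (s - 4)) / (2 * A) ^ 2) := by
        have p1 : (0 : ℝ) ≤ 324 * 3 ^ s *
          (((b : ℝ) ^ (4 * (s - 4)) / (2 * A) ^ 2) ^ 2 * (1 / w + δ)) := by positivity
        have p2 : (0 : ℝ) ≤ 128 * C' * ((b : ℝ) ^ (4 * (s - 4)) / (2 * A) ^ 2) := by positivity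
        linarith

end Pool.Agent.H58.RQ
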